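import Mathlib
import Pool.Agent.Helper98.RandAutDef
import Pool.Agent.Helper98.AutFinal

open Pool.Agent.Helper98.RandAut

namespace Pool.Agent.Results.MP_8401d0_pr.MinimalLiminf

open Filter Topology in
/-- For every alphabet size `k ≥ 2`, a random accessible automaton with a single final state is
minimal with probability bounded away from zero: the lower limit is at least `1 / 2`, and the
probability tends to `1` when `k ≥ 3`. -/
theorem result {k : ℕ} (hk : 2 ≤ k) :
    (1 / 2 : ℝ) ≤ liminf (fun n => minProb k n) atTop ∧
      (3 ≤ k → Tendsto (fun n => minProb k n) atTop (𝓝 1)) :=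
  Pool.Agent.Helper98.Aut.main k hk

end Pool.Agent.Results.MP_8401d0_pr.MinimalLiminf
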